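import Pool.Agent.H197R2.PG5
import Pool.Agent.Helper923.PNT
import Pool.Agent.Helper602.MK.J3

set_option autoImplicit false

/-!
# The average of the singular series over pairs of small primes
-/

namespace Pool.Agent.J6H28.GD

open Finset Filter Topology
open Pool.Agent.H197R2.PG (gg QQ RR one_le_gg gg_two_mul_le)

lemma gg_le_sum (h : ℕ) (hh : 0 < h) : gg h ≤ ∑ d ∈ h.divisors, 1 / (d : ℝ) := by
  classical
  unfold gg
  have h1 : ∏ p ∈ h.primeFactors, (1 + 1 / (p : ℝ)) =
      ∑ t ∈ h.primeFactors.powerset, 1 / ((∏ p ∈ t, p : ℕ) : ℝ) := by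
    rw [Finset.prod_one_add]
    refine sum_congr rfl fun t _ => ?_
    push_cast
    rw [Finset.prod_div_distrib]
    simp
  rw [h1]
  have hinj : Set.InjOn (fun t : Finset ℕ => ∏ p ∈ t, p) (h.primeFactors.powerset : Set (Finset ℕ)) := by
    intro s hs t ht hst
    rw [mem_coe, mem_powerset] at hs ht
    have e1 : (∏ p ∈ s, p).primeFactors = s :=
      Nat.primeFactors_prod fun p hp => Nat.prime_of_mem_primeFactors (hs hp)
    have e2 : (∏ p ∈ t, p).primeFactors = t :=
      Nat.primeFactors_prod fun p hp => Nat.prime_of_mem_primeFactors (ht hp)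
    rw [← e1, ← e2]
    exact congrArg _ hst
  rw [← Finset.sum_image (g := fun t : Finset ℕ => ∏ p ∈ t, p) (f := fun d : ℕ => 1 / (d : ℝ)) hinj]
  apply Finset.sum_le_sum_of_subset_of_nonneg
  · intro d hd
    rw [mem_image] at hd
    obtain ⟨t, ht, rfl⟩ := hd
    rw [mem_powerset] at ht
    rw [Nat.mem_divisors]
    refine ⟨?_, hh.ne'⟩
    exact (Finset.prod_dvd_prod_of_subset _ _ _ ht).trans (Nat.prod_primeFactors_dvd h)
  · intro i _ _
    positivity

lemma card_divisors_le (k : ℕ) : k.divisors.card ≤ 2 * Nat.sqrt k := by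
  classical
  rcases Nat.eq_zero_or_pos k with rfl | hk
  · simp
  have h1 : k.divisors ⊆ (Finset.Icc 1 (Nat.sqrt k)) ∪
      (Finset.Icc 1 (Nat.sqrt k)).image (fun d => k / d) := by
    intro d hd
    have hdk := Nat.dvd_of_mem_divisors hd
    have hd0 := Nat.pos_of_mem_divisors hd
    rw [Finset.mem_union]
    by_cases h : d ≤ Nat.sqrt k
    · left; rw [Finset.mem_Icc]; exact ⟨hd0, h⟩
    · right
      rw [Finset.mem_image]
      refine ⟨k / d, ?_, Nat.div_div_self hdk hk.ne'⟩
      rw [Finset.mem_Icc]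
      constructor
      · exact Nat.div_pos (Nat.le_of_dvd hk hdk) hd0
      · by_contra hcon
        push Not at h hcon
        have h2 : d * (k / d) = k := Nat.mul_div_cancel' hdk
        have h3 := Nat.lt_succ_sqrt k
        have h4 : (Nat.sqrt k + 1) * (Nat.sqrt k + 1) ≤ d * (k / d) := Nat.mul_le_mul h hcon
        rw [h2] at h4
        exact absurd h3 (not_lt.mpr h4)
  calc k.divisors.card ≤ ((Finset.Icc 1 (Nat.sqrt k)) ∪
      (Finset.Icc 1 (Nat.sqrt k)).image (fun d => k / d)).card := Finset.card_le_card h1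
    _ ≤ (Finset.Icc 1 (Nat.sqrt k)).card +
      ((Finset.Icc 1 (Nat.sqrt k)).image (fun d => k / d)).card := Finset.card_union_le _ _
    _ ≤ Nat.sqrt k + Nat.sqrt k := by
        apply add_le_add
        · simp
        · exact Finset.card_image_le.trans (by simp)
    _ = 2 * Nat.sqrt k := by ring

lemma sqrt_le_totient (k : ℕ) (hk : 1 ≤ k) : Real.sqrt k ≤ 2 * Nat.totient k := by
  have h1 : k ≤ k.divisors.card * Nat.totient k := by
    calc k = ∑ e ∈ k.divisors, Nat.totient e := (Nat.sum_totient k).symm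
      _ ≤ ∑ _e ∈ k.divisors, Nat.totient k := by
          apply Finset.sum_le_sum
          intro e he
          exact Nat.le_of_dvd (Nat.totient_pos.mpr (by omega))
            (Nat.totient_dvd_of_dvd (Nat.dvd_of_mem_divisors he))
      _ = k.divisors.card * Nat.totient k := by rw [Finset.sum_const, smul_eq_mul]
  have h2 := card_divisors_le k
  have h3 : k ≤ 2 * Nat.sqrt k * Nat.totient k := h1.trans (Nat.mul_le_mul_right _ h2)
  have h4 : (k : ℝ) ≤ 2 * (Nat.sqrt k : ℝ) * Nat.totient k := by exact_mod_cast h3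
  have h5 : (Nat.sqrt k : ℝ) ≤ Real.sqrt k := Real.nat_sqrt_le_real_sqrt
  have h6 : 0 < Real.sqrt k := Real.sqrt_pos.mpr (by exact_mod_cast (by omega : 0 < k))
  have h7 : Real.sqrt k * Real.sqrt k = k := Real.mul_self_sqrt (by positivity)
  have h8 : (0 : ℝ) ≤ Nat.totient k := by positivity
  have h9 : Real.sqrt k * Real.sqrt k ≤ Real.sqrt k * (2 * Nat.totient k) := by
    rw [h7]
    refine h4.trans ?_
    nlinarith
  exact le_of_mul_le_mul_left h9 h6

/-- `∑ 1 / (d φ(d))` converges. -/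
lemma sum_inv_totient : ∃ C : ℝ, 0 ≤ C ∧ ∀ D : ℕ, ∑ d ∈ Icc 1 D, 1 / ((d : ℝ) * Nat.totient d) ≤ C := by
  have hs : Summable (fun n : ℕ => 2 * (1 / (n : ℝ) ^ (3 / 2 : ℝ))) :=
    (Real.summable_one_div_nat_rpow.2 (by norm_num)).mul_left 2
  refine ⟨∑' n : ℕ, 2 * (1 / (n : ℝ) ^ (3 / 2 : ℝ)), tsum_nonneg fun n => by positivity, fun D => ?_⟩
  refine le_trans (Finset.sum_le_sum fun d hd => ?_) (hs.sum_le_tsum (Icc 1 D) fun n _ => by positivity)
  rw [mem_Icc] at hd
  have h1 := sqrt_le_totient d hd.1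
  have hd0 : (0 : ℝ) < d := by exact_mod_cast hd.1
  have hphi : (0 : ℝ) < Nat.totient d := by exact_mod_cast Nat.totient_pos.2 hd.1
  have h2 : (d : ℝ) ^ (3 / 2 : ℝ) = d * Real.sqrt d := by
    rw [Real.sqrt_eq_rpow, ← Real.rpow_one_add' hd0.le (by norm_num)]
    norm_num
  rw [h2, mul_one_div, div_le_div_iff₀ (by positivity) (by positivity)]
  nlinarith

/-- the number of the members of `S` congruent to `a` modulo `d` -/
lemma class_count : ∃ C : ℝ, 1 ≤ C ∧ ∀ (y d a : ℕ), 1 ≤ d → d ≤ y →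
    ((((Icc 3 y).filter (fun p => p.Prime ∧ p % d = a % d)).card : ℝ) ≤
      C * ((d : ℝ) / Nat.totient d) * (y / d) / Real.log (y / d + 1)) ∧
    ((((Icc 3 y).filter (fun p => p.Prime ∧ p % d = a % d)).card : ℝ) ≤ 2 * (y / d)) := by
  obtain ⟨C, hC1, hC⟩ := Pool.Agent.Helper602.MK.BTLib.brun_titchmarsh
  refine ⟨4 * C, by linarith, fun y d a hd hdy => ?_⟩
  have hd0 : (0 : ℝ) < d := by exact_mod_cast hd
  set N : ℕ := y / d + 1 with hN
  have hyd1 : 1 ≤ y / d := (Nat.one_le_div_iff (by omega)).2 hdy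
  have hN2 : 2 ≤ N := by omega
  have hfl : ((y / d : ℕ) : ℝ) ≤ y / d := Nat.cast_div_le
  have hyd1' : (1 : ℝ) ≤ (y : ℝ) / d := by
    rw [le_div_iff₀ hd0, one_mul]; exact_mod_cast hdy
  have hN' : (N : ℝ) ≤ 2 * ((y : ℝ) / d) := by
    rw [hN]; push_cast; linarith
  have hNlow : (y : ℝ) / d + 1 ≤ N + 1 := by
    rw [hN]; push_cast
    have := Nat.lt_floor_add_one ((y : ℝ) / d)
    rw [Nat.floor_div_natCast, Nat.floor_natCast] at this
    linarith
  have hNlow2 : (y : ℝ) / d ≤ N := by linarith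
  -- the map k ↦ a % d + k d
  have hsub : (Icc 3 y).filter (fun p => p.Prime ∧ p % d = a % d) ⊆
      ((range N).filter (fun k => (a % d + k * d).Prime)).image (fun k => a % d + k * d) := by
    intro p hp
    rw [mem_filter, mem_Icc] at hp
    rw [mem_image]
    refine ⟨p / d, ?_, ?_⟩
    · rw [mem_filter, mem_range]
      refine ⟨?_, ?_⟩
      · rw [hN]
        have := Nat.div_le_div_right (c := d) hp.1.2
        omega
      · rw [← hp.2.2, Nat.mod_add_div' p d]
        exact hp.2.1
    · rw [← hp.2.2, Nat.mod_add_div' p d]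
  have hcard := (card_le_card hsub).trans card_image_le
  have hcard' : (((Icc 3 y).filter (fun p => p.Prime ∧ p % d = a % d)).card : ℝ) ≤
      ((range N).filter (fun k => (a % d + k * d).Prime)).card := by exact_mod_cast hcard
  refine ⟨?_, ?_⟩
  · refine hcard'.trans ((hC (a % d) d N hd hN2).trans ?_)
    have hphi : (0 : ℝ) < Nat.totient d := by exact_mod_cast Nat.totient_pos.2 hd
    have hl1 : 0 < Real.log (y / d + 1) := Real.log_pos (by linarith)
    have hlN : 0 < Real.log N := Real.log_pos (by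
      have : (2 : ℝ) ≤ N := by exact_mod_cast hN2
      linarith)
    have hN2' : (2 : ℝ) ≤ N := by exact_mod_cast hN2
    have hmono : (N : ℝ) / Real.log N ≤ 4 * (y / d) / Real.log (y / d + 1) := by
      have h1 : Real.log (y / d + 1) ≤ 2 * Real.log N := by
        rw [← Real.log_rpow (by linarith)]
        apply Real.log_le_log (by linarith)
        rw [show (2 : ℝ) = ((2 : ℕ) : ℝ) by norm_num, Real.rpow_natCast]
        nlinarith
      rw [div_le_div_iff₀ hlN hl1]
      calc (N : ℝ) * Real.log (y / d + 1) ≤ (2 * (y / d)) * (2 * Real.log N) :=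
            mul_le_mul hN' h1 hl1.le (by linarith)
        _ = _ := by ring
    calc C * ((d : ℝ) / Nat.totient d) * N / Real.log N
        = C * ((d : ℝ) / Nat.totient d) * ((N : ℝ) / Real.log N) := by ring
      _ ≤ C * ((d : ℝ) / Nat.totient d) * (4 * (y / d) / Real.log (y / d + 1)) := by gcongr
      _ = _ := by ring
  · refine hcard'.trans ?_
    have : ((range N).filter (fun k => (a % d + k * d).Prime)).card ≤ N := by
      refine (card_filter_le _ _).trans ?_
      rw [card_range]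
    have h3 : (((range N).filter (fun k => (a % d + k * d).Prime)).card : ℝ) ≤ N := by exact_mod_cast this
    linarith

/-- the odd primes up to `y` -/
noncomputable def SS (y : ℕ) : Finset ℕ := (Icc 3 y).filter Nat.Prime

lemma row_bound : ∃ C : ℝ, 1 ≤ C ∧ ∀ y a : ℕ, 3 ≤ y → a ∈ SS y →
    ∑ b ∈ (SS y).erase a, gg (2 * Nat.dist a b) ≤ C * (y / Real.log y) := by
  classical
  obtain ⟨C, hC1, hC⟩ := class_count
  obtain ⟨D, hD0, hD⟩ := sum_inv_totient
  refine ⟨3 / 2 * (2 * C * D + 16) + 1, by nlinarith [mul_nonneg (by linarith : (0:ℝ) ≤ C) hD0], fun y a hy ha => ?_⟩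
  have hy0 : (0 : ℝ) < y := by exact_mod_cast (by omega : 0 < y)
  have hy3 : (3 : ℝ) ≤ y := by exact_mod_cast hy
  have hlog : 0 < Real.log y := Real.log_pos (by linarith)
  have ha' : 3 ≤ a ∧ a ≤ y := by
    unfold SS at ha
    rw [mem_filter, mem_Icc] at ha
    exact ha.1
  set s := Nat.sqrt y with hs
  have hs1 : 1 ≤ s := by
    rw [hs]; exact Nat.sqrt_pos.2 (by omega)
  -- step 1: divisors
  have h1 : ∑ b ∈ (SS y).erase a, gg (2 * Nat.dist a b) ≤
      3 / 2 * ∑ b ∈ (SS y).erase a, ∑ d ∈ (Icc 1 y).filter (fun d => d ∣ Nat.dist a b), 1 / (d : ℝ) := by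
    rw [mul_sum]
    apply sum_le_sum
    intro b hb
    rw [mem_erase] at hb
    have hb' : 3 ≤ b ∧ b ≤ y := by
      have := hb.2
      unfold SS at this
      rw [mem_filter, mem_Icc] at this
      exact this.1
    have hd : 0 < Nat.dist a b := Nat.dist_pos_of_ne (Ne.symm hb.1)
    refine (gg_two_mul_le _ hd).trans ?_
    apply mul_le_mul_of_nonneg_left _ (by norm_num)
    refine (gg_le_sum _ hd).trans ?_
    apply Finset.sum_le_sum_of_subset_of_nonneg
    · intro d hd'
      rw [Nat.mem_divisors] at hd'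
      rw [mem_filter, mem_Icc]
      have h3 := Nat.le_of_dvd hd hd'.1
      have h4 : Nat.dist a b ≤ y := by unfold Nat.dist; omega
      exact ⟨⟨Nat.pos_of_dvd_of_pos hd'.1 hd, h3.trans h4⟩, hd'.1⟩
    · intro i _ _; positivity
  have h2 : ∑ b ∈ (SS y).erase a, ∑ d ∈ (Icc 1 y).filter (fun d => d ∣ Nat.dist a b), 1 / (d : ℝ) =
      ∑ d ∈ Icc 1 y, (1 / (d : ℝ)) * (((SS y).erase a).filter (fun b => d ∣ Nat.dist a b)).card := by
    simp_rw [sum_filter]
    rw [sum_comm]
    apply sum_congr rfl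
    intro d _
    rw [← sum_filter, sum_const, nsmul_eq_mul, mul_comm]
  have h3 : ∀ d ∈ Icc 1 y, ((((SS y).erase a).filter (fun b => d ∣ Nat.dist a b)).card : ℝ) ≤
      ((((Icc 3 y).filter (fun p => p.Prime ∧ p % d = a % d)).card : ℕ) : ℝ) := by
    intro d _
    have : ((SS y).erase a).filter (fun b => d ∣ Nat.dist a b) ⊆
        (Icc 3 y).filter (fun p => p.Prime ∧ p % d = a % d) := by
      intro b hb
      rw [mem_filter, mem_erase] at hb
      have h4 := hb.1.2
      unfold SS at h4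
      rw [mem_filter] at h4
      rw [mem_filter]
      refine ⟨h4.1, h4.2, ?_⟩
      have h5 := hb.2
      rcases le_total a b with h | h
      · rw [Nat.dist_eq_sub_of_le h] at h5
        exact ((Nat.modEq_iff_dvd' h).2 h5).symm
      · rw [Nat.dist_eq_sub_of_le_right h] at h5
        exact (Nat.modEq_iff_dvd' h).2 h5
    exact_mod_cast card_le_card this
  -- step 2: split at `√y`
  have h4 : ∀ d ∈ Icc 1 y, (1 / (d : ℝ)) * (((SS y).erase a).filter (fun b => d ∣ Nat.dist a b)).card ≤
      2 * C * (y / Real.log y) * (1 / ((d : ℝ) * Nat.totient d)) +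
        (if s < d then 2 * y / (d : ℝ) ^ 2 else 0) := by
    intro d hd
    have hd' := mem_Icc.1 hd
    have hd0 : (0 : ℝ) < d := by exact_mod_cast hd'.1
    have hphi : (0 : ℝ) < Nat.totient d := by exact_mod_cast Nat.totient_pos.2 hd'.1
    obtain ⟨g1, g2⟩ := hC y d a hd'.1 hd'.2
    have g3 := h3 d hd
    split_ifs with hsd
    · have e1 : (1 / (d : ℝ)) * (((SS y).erase a).filter (fun b => d ∣ Nat.dist a b)).card ≤
          2 * y / (d : ℝ) ^ 2 := by
        calc (1 / (d : ℝ)) * (((SS y).erase a).filter (fun b => d ∣ Nat.dist a b)).card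
            ≤ (1 / (d : ℝ)) * (2 * (y / d)) := by
              apply mul_le_mul_of_nonneg_left (g3.trans g2) (by positivity)
          _ = _ := by field_simp
      have e2 : 0 ≤ 2 * C * (y / Real.log y) * (1 / ((d : ℝ) * Nat.totient d)) := by positivity
      linarith
    · push Not at hsd
      have hdd : d * d ≤ y := (Nat.mul_le_mul hsd hsd).trans (Nat.sqrt_le y)
      have hdd' : (d : ℝ) * d ≤ y := by exact_mod_cast hdd
      have hlogd : Real.log y / 2 ≤ Real.log (y / d + 1) := by
        have e1 : Real.log y ≤ 2 * Real.log (y / d + 1) := by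
          rw [← Real.log_rpow (by positivity)]
          apply Real.log_le_log hy0
          rw [show (2 : ℝ) = ((2 : ℕ) : ℝ) by norm_num, Real.rpow_natCast]
          have e2 : (d : ℝ) ≤ y / d := by rw [le_div_iff₀ hd0]; exact hdd'
          have e3 : (y : ℝ) = d * (y / d) := by field_simp
          nlinarith
        linarith
      rw [add_zero]
      calc (1 / (d : ℝ)) * (((SS y).erase a).filter (fun b => d ∣ Nat.dist a b)).card
          ≤ (1 / (d : ℝ)) * (C * ((d : ℝ) / Nat.totient d) * (y / d) / Real.log (y / d + 1)) := by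
            apply mul_le_mul_of_nonneg_left (g3.trans g1) (by positivity)
        _ ≤ (1 / (d : ℝ)) * (C * ((d : ℝ) / Nat.totient d) * (y / d) / (Real.log y / 2)) := by
            gcongr
        _ = _ := by field_simp
  have h5 : ∑ d ∈ Icc 1 y, (if s < d then 2 * (y : ℝ) / (d : ℝ) ^ 2 else 0) ≤ 4 * ((y : ℝ) / s) := by
    have e1 : ∀ n : ℕ, s ≤ n → ∑ d ∈ Icc 1 n, (if s < d then 2 * (y : ℝ) / (d : ℝ) ^ 2 else 0) ≤
        2 * (y : ℝ) * (1 / (s : ℝ) - 1 / (n : ℝ)) := by
      intro n hn
      induction n, hn using Nat.le_induction with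
      | base =>
        have : ∑ d ∈ Icc 1 s, (if s < d then 2 * (y : ℝ) / (d : ℝ) ^ 2 else 0) = 0 := by
          apply sum_eq_zero
          intro d hd
          rw [mem_Icc] at hd
          rw [if_neg (by omega)]
        rw [this]; simp
      | succ n hn ih =>
        rw [sum_Icc_succ_top (by omega), if_pos (by omega)]
        have hn0 : (0 : ℝ) < n := by exact_mod_cast (by omega : 0 < n)
        have e2 : 2 * (y : ℝ) / ((n + 1 : ℕ) : ℝ) ^ 2 ≤ 2 * (y : ℝ) * (1 / (n : ℝ) - 1 / ((n + 1 : ℕ) : ℝ)) := by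
          push_cast
          rw [div_sub_div _ _ hn0.ne' (by positivity), mul_div_assoc', div_le_div_iff₀ (by positivity) (by positivity)]
          have : (0 : ℝ) ≤ 2 * y := by positivity
          nlinarith [mul_nonneg this hn0.le, mul_nonneg (mul_nonneg this hn0.le) hn0.le]
        calc _ ≤ 2 * (y : ℝ) * (1 / (s : ℝ) - 1 / (n : ℝ)) + 2 * (y : ℝ) * (1 / (n : ℝ) - 1 / ((n + 1 : ℕ) : ℝ)) := add_le_add ih e2
          _ = _ := by ring
    have hsy : s ≤ y := Nat.sqrt_le_self y
    have hs0 : (0 : ℝ) < s := by exact_mod_cast hs1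
    refine (e1 y hsy).trans ?_
    have : 2 * (y : ℝ) * (1 / (s : ℝ) - 1 / (y : ℝ)) = 2 * ((y : ℝ) / s) - 2 := by field_simp
    rw [this]
    have : 0 ≤ (y : ℝ) / s := by positivity
    linarith
  have h6 : (y : ℝ) / s ≤ 4 * (y / Real.log y) := by
    have hs0 : (0 : ℝ) < s := by exact_mod_cast hs1
    have e1 : Real.log y ≤ 4 * s := by
      have e2 : (y : ℝ) ≤ (s + 1) ^ 2 := by
        have := (Nat.lt_succ_sqrt y).le
        have h9 : (y : ℝ) ≤ ((s + 1) * (s + 1) : ℕ) := by exact_mod_cast this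
        push_cast at h9
        nlinarith
      have e3 : Real.log y ≤ 2 * Real.log (s + 1) := by
        calc Real.log y ≤ Real.log ((s + 1 : ℝ) ^ 2) := Real.log_le_log hy0 e2
          _ = 2 * Real.log (s + 1) := by rw [Real.log_pow]; norm_num
      have e4 : Real.log (s + 1) ≤ s := by
        have := Real.log_le_sub_one_of_pos (by positivity : (0 : ℝ) < s + 1)
        linarith
      linarith
    rw [mul_div_assoc', div_le_div_iff₀ hs0 hlog]
    nlinarith
  calc ∑ b ∈ (SS y).erase a, gg (2 * Nat.dist a b)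
      ≤ 3 / 2 * ∑ d ∈ Icc 1 y, (1 / (d : ℝ)) * (((SS y).erase a).filter (fun b => d ∣ Nat.dist a b)).card := by
        rw [← h2]; exact h1
    _ ≤ 3 / 2 * ∑ d ∈ Icc 1 y, (2 * C * (y / Real.log y) * (1 / ((d : ℝ) * Nat.totient d)) +
        (if s < d then 2 * y / (d : ℝ) ^ 2 else 0)) := by
        apply mul_le_mul_of_nonneg_left (sum_le_sum h4) (by norm_num)
    _ = 3 / 2 * (2 * C * (y / Real.log y) * ∑ d ∈ Icc 1 y, (1 / ((d : ℝ) * Nat.totient d)) +
        ∑ d ∈ Icc 1 y, (if s < d then 2 * (y : ℝ) / (d : ℝ) ^ 2 else 0)) := by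
        rw [sum_add_distrib, ← mul_sum]
    _ ≤ 3 / 2 * (2 * C * (y / Real.log y) * D + 4 * (4 * (y / Real.log y))) := by
        apply mul_le_mul_of_nonneg_left _ (by norm_num)
        apply add_le_add
        · apply mul_le_mul_of_nonneg_left (hD y) (by positivity)
        · linarith
    _ ≤ _ := by
        have : 0 ≤ (y : ℝ) / Real.log y := by positivity
        nlinarith

end Pool.Agent.J6H28.GD
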