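import Pool.Agent.J6H28.GD.Mom

set_option autoImplicit false

/-!
# The number of the even integers with a small prime in a Goldbach representation
-/

namespace Pool.Agent.J6H28.GD

open Finset Filter Topology

lemma log_le_two_sqrt {y : ℝ} (hy : 0 < y) : Real.log y ≤ 2 * Real.sqrt y := by
  have h1 : Real.log y = 2 * Real.log (Real.sqrt y) := by
    rw [Real.log_sqrt hy.le]; ring
  have h2 := Real.log_le_sub_one_of_pos (Real.sqrt_pos.2 hy)
  rw [h1]; linarith

lemma SS_nonempty {y : ℕ} (hy : 3 ≤ y) : (1 : ℝ) ≤ #(SS y) := by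
  have : 0 < #(SS y) := by
    rw [card_pos]
    exact ⟨3, by unfold SS; rw [mem_filter, mem_Icc]; exact ⟨⟨le_rfl, hy⟩, Nat.prime_three⟩⟩
  exact_mod_cast this

/-- if there are at most `log X` primes up to `y` then `y` is at most `K log² X` -/
lemma y_bound : ∃ K : ℝ, 1 ≤ K ∧ ∀ y : ℕ, 3 ≤ y → ∀ L : ℝ, (#(SS y) : ℝ) ≤ L →
    (y : ℝ) ≤ K * L ^ 2 := by
  obtain ⟨c, hc0, hc⟩ := cheb_SS
  refine ⟨max 1 (4 / c ^ 2), le_max_left _ _, fun y hy L hL => ?_⟩
  have hy3 : (3 : ℝ) ≤ y := by exact_mod_cast hy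
  have hy0 : (0 : ℝ) < y := by linarith
  have hlog : 0 < Real.log y := Real.log_pos (by linarith)
  have h1 := hc y hy
  have h2 := log_le_two_sqrt hy0
  have hs : 0 < Real.sqrt y := Real.sqrt_pos.2 hy0
  have hss : Real.sqrt y * Real.sqrt y = y := Real.mul_self_sqrt hy0.le
  have h3 : Real.sqrt y / 2 ≤ y / Real.log y := by
    rw [div_le_div_iff₀ (by norm_num) hlog]
    calc Real.sqrt y * Real.log y ≤ Real.sqrt y * (2 * Real.sqrt y) := by gcongr
      _ = y * 2 := by rw [← mul_assoc, mul_comm (Real.sqrt y) 2, mul_assoc, hss]; ring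
  have h4 : c * (Real.sqrt y / 2) ≤ L := (mul_le_mul_of_nonneg_left h3 hc0.le).trans (h1.trans hL)
  have h5 : Real.sqrt y ≤ 2 / c * L := by
    rw [div_mul_eq_mul_div, le_div_iff₀ hc0]
    linarith
  have hL0 : 0 ≤ 2 / c * L := hs.le.trans h5
  calc (y : ℝ) = Real.sqrt y * Real.sqrt y := hss.symm
    _ ≤ (2 / c * L) * (2 / c * L) := mul_le_mul h5 h5 hs.le hL0
    _ = 4 / c ^ 2 * L ^ 2 := by ring
    _ ≤ _ := by gcongr; exact le_max_right _ _

/-- the asymptotic number of the primes up to `X` and up to `X - y` -/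
lemma SS_asymp (η : ℝ) (hη : 0 < η) : ∃ X₀ : ℕ, ∀ X : ℕ, X₀ ≤ X →
    (1 - η) * (X / Real.log X) ≤ #(SS X) ∧ (#(SS X) : ℝ) ≤ (1 + η) * (X / Real.log X) := by
  have hpi := Pool.Agent.Helper923.PNT.pi_tendsto
  have t1 : Tendsto (fun X : ℕ => (Nat.primeCounting X : ℝ) * Real.log X / X) atTop (𝓝 1) := by
    have := hpi.comp tendsto_natCast_atTop_atTop
    refine this.congr fun X => ?_
    simp
  have t4 : Tendsto (fun X : ℕ => Real.log X / X) atTop (𝓝 0) := by
    have h := (Real.isLittleO_log_id_atTop).tendsto_div_nhds_zero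
    have := h.comp tendsto_natCast_atTop_atTop
    refine this.congr fun X => ?_
    simp
  have t5 := t1.sub t4
  rw [sub_zero] at t5
  have e1 := t5.eventually (lt_mem_nhds (by linarith : 1 - η < 1))
  have e2 := t5.eventually (gt_mem_nhds (by linarith : 1 < 1 + η))
  obtain ⟨Y0, hY0⟩ := eventually_atTop.1 (e1.and e2)
  refine ⟨max Y0 3, fun X hX => ?_⟩
  have hX3 : 3 ≤ X := (le_max_right _ _).trans hX
  obtain ⟨g1, g2⟩ := hY0 X ((le_max_left _ _).trans hX)
  have hX3' : (3 : ℝ) ≤ X := by exact_mod_cast hX3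
  have hlog : 0 < Real.log X := Real.log_pos (by linarith)
  have hyl : 0 ≤ (X : ℝ) / Real.log X := by positivity
  rw [card_SS X (by omega)]
  have h2 : ((Nat.primeCounting X : ℝ) * Real.log X / X - Real.log X / X) * (X / Real.log X) =
      (Nat.primeCounting X : ℝ) - 1 := by
    field_simp
  rw [← h2]
  exact ⟨mul_le_mul_of_nonneg_right g1.le hyl, mul_le_mul_of_nonneg_right g2.le hyl⟩

lemma SS_sub (X y : ℕ) : (#(SS X) : ℝ) - y ≤ #(SS (X - y)) := by
  classical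
  have h1 : SS X ⊆ SS (X - y) ∪ Ioc (X - y) X := by
    intro p hp
    unfold SS at hp ⊢
    rw [mem_filter, mem_Icc] at hp
    rw [mem_union, mem_filter, mem_Icc, mem_Ioc]
    rcases Nat.lt_or_ge (X - y) p with h | h
    · right; exact ⟨h, hp.1.2⟩
    · left; exact ⟨⟨hp.1.1, h⟩, hp.2⟩
  have h2 := (card_le_card h1).trans (card_union_le _ _)
  rw [Nat.card_Ioc] at h2
  have h3 : X - (X - y) ≤ y := by omega
  have h4 : (#(SS X) : ℝ) ≤ #(SS (X - y)) + y := by exact_mod_cast h2.trans (by omega)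
  linarith

/-- the lower bound -/
theorem II_lower : ∃ C : ℝ, 1 ≤ C ∧ ∀ η : ℝ, 0 < η → η ≤ 1 / 2 → ∃ X₀ : ℕ, ∀ X y : ℕ, X₀ ≤ X → 3 ≤ y →
    (#(SS y) : ℝ) ≤ Real.log X →
    y ≤ X ∧ #(SS y) * ((1 - η) * (X / Real.log X)) ≤ #(II y (X - y)) * (1 + C * #(SS y) / Real.log X) := by
  obtain ⟨C, hC1, u0, hmom⟩ := moment
  obtain ⟨K, hK1, hK⟩ := y_bound
  refine ⟨8 * C, by linarith, fun η hη hη1 => ?_⟩
  obtain ⟨X1, hX1⟩ := SS_asymp (η / 2) (by linarith)
  -- largeness conditions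
  have hl : Tendsto (fun X : ℕ => Real.log (X : ℝ)) atTop atTop :=
    Real.tendsto_log_atTop.comp tendsto_natCast_atTop_atTop
  have c1 : ∀ᶠ X : ℕ in atTop, K * Real.log X ^ 2 ≤ (η / 2) * (X / Real.log X) := by
    have h := (Real.isLittleO_pow_log_id_atTop (n := 3)).bound (show 0 < (η / (2 * K)) by positivity)
    have h' := (tendsto_natCast_atTop_atTop (R := ℝ)).eventually h
    filter_upwards [h', eventually_ge_atTop 3] with X hX hX3
    have hX3' : (3 : ℝ) ≤ X := by exact_mod_cast hX3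
    have hlog : 0 < Real.log X := Real.log_pos (by linarith)
    rw [Real.norm_of_nonneg (by positivity)] at hX
    simp only [id, Real.norm_of_nonneg (by positivity : (0 : ℝ) ≤ X)] at hX
    rw [mul_div_assoc', le_div_iff₀ hlog]
    have hK0 : 0 < K := by linarith
    calc K * Real.log X ^ 2 * Real.log X = K * Real.log X ^ 3 := by ring
      _ ≤ K * (η / (2 * K) * X) := by gcongr
      _ = η / 2 * X := by field_simp
  have c2 : ∀ᶠ X : ℕ in atTop, 2 * (K * Real.log X ^ 2) ≤ ((X : ℝ) / 2) ^ (1 / 16 : ℝ) := by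
    have h := (isLittleO_log_rpow_rpow_atTop (s := (1 / 16 : ℝ)) 2 (by norm_num)).bound
      (show 0 < (1 / (2 * K) * (1 / 2 : ℝ) ^ (1 / 16 : ℝ)) by positivity)
    have h' := (tendsto_natCast_atTop_atTop (R := ℝ)).eventually h
    filter_upwards [h', eventually_ge_atTop 3] with X hX hX3
    have hX3' : (3 : ℝ) ≤ X := by exact_mod_cast hX3
    have hX0 : (0 : ℝ) ≤ X := by linarith
    have hlog : 0 < Real.log X := Real.log_pos (by linarith)
    rw [Real.norm_of_nonneg (by positivity), Real.norm_of_nonneg (by positivity),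
      show (2 : ℝ) = ((2 : ℕ) : ℝ) by norm_num, Real.rpow_natCast] at hX
    have hK0 : 0 < K := by linarith
    rw [div_eq_mul_one_div, Real.mul_rpow hX0 (by norm_num)]
    calc 2 * (K * Real.log X ^ 2) ≤ 2 * (K * (1 / (((2 : ℕ) : ℝ) * K) * (1 / ((2 : ℕ) : ℝ)) ^ (1 / 16 : ℝ) * (X : ℝ) ^ (1 / 16 : ℝ))) := by
          gcongr
      _ = _ := by push_cast; field_simp
  obtain ⟨X2, hX2⟩ := eventually_atTop.1 ((c1.and c2).and (hl.eventually_ge_atTop 4))
  refine ⟨max (max X1 X2) (max (2 * u0) 16), fun X y hX hy hSy => ?_⟩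
  obtain ⟨k1, k2⟩ := hX1 X (((le_max_left _ _).trans (le_max_left _ _)).trans hX)
  obtain ⟨⟨k3, k4⟩, k5⟩ := hX2 X (((le_max_right _ _).trans (le_max_left _ _)).trans hX)
  have hXu : 2 * u0 ≤ X := ((le_max_left _ _).trans (le_max_right _ _)).trans hX
  have hX16 : 16 ≤ X := ((le_max_right _ _).trans (le_max_right _ _)).trans hX
  have hX16' : (16 : ℝ) ≤ X := by exact_mod_cast hX16
  set l := Real.log X with hldef
  have hl0 : 0 < l := by linarith
  have hy1 := hK y hy l hSy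
  have hXl : 0 < (X : ℝ) / l := by positivity
  have hXl' : (X : ℝ) / l ≤ X / 4 := by gcongr
  have hyX : (y : ℝ) ≤ X / 8 := by
    have : η / 2 * (X / l) ≤ (1 / 2) * (X / 4) := by
      apply mul_le_mul (by linarith) hXl' hXl.le (by norm_num)
    linarith
  have hyX' : y ≤ X := by
    have : (y : ℝ) ≤ X := by linarith
    exact_mod_cast this
  refine ⟨hyX', ?_⟩
  obtain ⟨x, hx⟩ : ∃ x, x = X - y := ⟨_, rfl⟩
  have hxr : (x : ℝ) = X - y := by rw [hx, Nat.cast_sub hyX']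
  have hx2 : (X : ℝ) / 2 ≤ x := by linarith
  have hxX : (x : ℝ) ≤ X := by rw [hxr]; linarith [Nat.cast_nonneg (α := ℝ) y]
  have hxu : u0 ≤ x := by
    have : (u0 : ℝ) ≤ x := by
      have h1 : (2 * u0 : ℝ) ≤ X := by exact_mod_cast hXu
      linarith
    exact_mod_cast this
  have hxy : 2 * (y : ℝ) ≤ (x : ℝ) ^ (1 / 16 : ℝ) := by
    calc 2 * (y : ℝ) ≤ 2 * (K * l ^ 2) := by linarith
      _ ≤ ((X : ℝ) / 2) ^ (1 / 16 : ℝ) := k4
      _ ≤ _ := Real.rpow_le_rpow (by positivity) hx2 (by norm_num)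
  have hm := hmom x y hxu hy hxy
  have hS1 := SS_nonempty hy
  obtain ⟨S, hS⟩ : ∃ S : ℝ, S = (#(SS y) : ℝ) := ⟨_, rfl⟩
  obtain ⟨Q, hQ⟩ : ∃ Q : ℝ, Q = (#(SS x) : ℝ) := ⟨_, rfl⟩
  obtain ⟨I, hI⟩ : ∃ I : ℝ, I = (#(II y x) : ℝ) := ⟨_, rfl⟩
  rw [← hx, ← hI, ← hS]
  rw [← hI, ← hS, ← hQ] at hm
  rw [← hS] at hS1 hSy
  have hI0 : 0 ≤ I := by rw [hI]; exact Nat.cast_nonneg _
  -- lower bound for Q
  have hQ1 : (1 - η) * (X / l) ≤ Q := by
    have h1 := SS_sub X y
    rw [← hx, ← hQ] at h1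
    have h2 : (1 - η) * (X / l) = (1 - η / 2) * (X / l) - η / 2 * (X / l) := by ring
    rw [h2]
    linarith
  have hQ2 : (1 / 2) * (X / l) ≤ Q := (mul_le_mul_of_nonneg_right (by linarith) hXl.le).trans hQ1
  have hQ0 : 0 < Q := by
    have : 0 < (1 / 2) * ((X : ℝ) / l) := by positivity
    linarith
  have hx0 : (0 : ℝ) < x := by linarith
  have hlx : l / 2 ≤ Real.log x := by
    have e1 : Real.sqrt X ≤ x := by
      rw [Real.sqrt_le_left (by linarith)]
      nlinarith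
    calc l / 2 = Real.log (Real.sqrt X) := by rw [Real.log_sqrt (by linarith)]
      _ ≤ Real.log x := Real.log_le_log (Real.sqrt_pos.2 (by linarith)) e1
  have hlx0 : 0 < Real.log x := by linarith
  have h6 : C * S ^ 2 * x / Real.log x ^ 2 ≤ (S * Q) * (8 * C * S / l) := by
    have e1 : C * S ^ 2 * x / Real.log x ^ 2 ≤ C * S ^ 2 * X / (l / 2) ^ 2 := by
      gcongr
    have e2 : C * S ^ 2 * X / (l / 2) ^ 2 = (S * ((1 / 2) * (X / l))) * (8 * C * S / l) := by
      field_simp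
      ring
    rw [e2] at e1
    refine e1.trans ?_
    gcongr
  have h7 : (S * Q) ^ 2 ≤ I * ((S * Q) * (1 + 8 * C * S / l)) := by
    refine hm.trans ?_
    apply mul_le_mul_of_nonneg_left _ hI0
    rw [mul_add, mul_one]
    linarith
  have hSQ : 0 < S * Q := by positivity
  have h8 : S * Q ≤ I * (1 + 8 * C * S / l) := by
    have : (S * Q) * (S * Q) ≤ (S * Q) * (I * (1 + 8 * C * S / l)) := by
      calc (S * Q) * (S * Q) = (S * Q) ^ 2 := by ring
        _ ≤ _ := h7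
        _ = _ := by ring
    exact le_of_mul_le_mul_left this hSQ
  refine le_trans ?_ h8
  gcongr

end Pool.Agent.J6H28.GD
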