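import Mathlib

set_option autoImplicit false

/-!
# The least prime in Goldbach representations: definitions
-/

namespace Pool.Agent.J6H28.GD

open Finset

/-- `g m`: the least prime `p` such that `m - p` is also prime; `⊤` if there is no such prime. -/
noncomputable def g (m : ℕ) : ℕ∞ := sInf {a : ℕ∞ | ∃ p : ℕ, p.Prime ∧ (m - p).Prime ∧ a = (p : ℕ∞)}

/-- `g m` is finite and at most the real number `t`. -/
def AtMost (m : ℕ) (t : ℝ) : Prop := ∃ k : ℕ, g m = (k : ℕ∞) ∧ (k : ℝ) ≤ t

open Classical in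
/-- `N X t`: the number of the even integers `m` with `4 ≤ m ≤ X` and `g m ≤ t`. -/
noncomputable def N (X : ℕ) (t : ℝ) : ℕ := #{m ∈ Icc 4 X | Even m ∧ AtMost m t}

/-- `π(t)`: the number of the primes up to `t` -/
noncomputable def pi (t : ℝ) : ℝ := (Nat.primeCounting ⌊t⌋₊ : ℝ)

end Pool.Agent.J6H28.GD
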