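import Pool.Agent.J6H28.GD.Cnt
import Pool.Agent.J6H28.GD.Defs

set_option autoImplicit false

/-!
# The distribution of the least prime in Goldbach representations: proofs
-/

namespace Pool.Agent.J6H28.GD

open Finset Filter Topology

lemma atMost_iff (m : ℕ) (t : ℝ) : AtMost m t ↔ ∃ p : ℕ, p.Prime ∧ (m - p).Prime ∧ (p : ℝ) ≤ t := by
  unfold AtMost g
  constructor
  · rintro ⟨k, hk, hkt⟩
    have hne : ({a : ℕ∞ | ∃ p : ℕ, p.Prime ∧ (m - p).Prime ∧ a = (p : ℕ∞)}).Nonempty := by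
      by_contra h
      rw [Set.not_nonempty_iff_eq_empty] at h
      rw [h, sInf_empty] at hk
      exact ENat.natCast_ne_top k hk.symm
    have hmem := csInf_mem hne
    rw [hk] at hmem
    obtain ⟨p, hp, hq, hpk⟩ := hmem
    have : k = p := by exact_mod_cast hpk
    exact ⟨p, hp, hq, by rw [← this]; exact hkt⟩
  · rintro ⟨p, hp, hq, hpt⟩
    have hne : ({a : ℕ∞ | ∃ p : ℕ, p.Prime ∧ (m - p).Prime ∧ a = (p : ℕ∞)}).Nonempty :=
      ⟨p, p, hp, hq, rfl⟩
    obtain ⟨k, hk, hkq, hkk⟩ := csInf_mem hne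
    refine ⟨k, hkk, ?_⟩
    have h1 : ((k : ℕ) : ℕ∞) ≤ p := by
      rw [← hkk]
      exact csInf_le (OrderBot.bddBelow _) ⟨p, hp, hq, rfl⟩
    have h2 : k ≤ p := by exact_mod_cast h1
    have h3 : (k : ℝ) ≤ p := by exact_mod_cast h2
    linarith

lemma mono_N (X : ℕ) {s t : ℝ} (h : s ≤ t) : N X s ≤ N X t := by
  classical
  unfold N
  apply card_le_card
  intro m hm
  rw [mem_filter] at hm ⊢
  refine ⟨hm.1, hm.2.1, ?_⟩
  obtain ⟨k, h1, h2⟩ := hm.2.2
  exact ⟨k, h1, h2.trans h⟩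

lemma mem_SS {p y : ℕ} : p ∈ SS y ↔ (3 ≤ p ∧ p ≤ y) ∧ p.Prime := by
  unfold SS; rw [mem_filter, mem_Icc]

lemma N_floor (X : ℕ) {t : ℝ} (ht : 0 ≤ t) : N X t = N X ((⌊t⌋₊ : ℕ) : ℝ) := by
  classical
  unfold N
  congr 1
  ext m
  rw [mem_filter, mem_filter, atMost_iff, atMost_iff]
  have : ∀ p : ℕ, (p : ℝ) ≤ t ↔ (p : ℝ) ≤ ((⌊t⌋₊ : ℕ) : ℝ) := by
    intro p
    rw [Nat.cast_le]
    exact (Nat.le_floor_iff ht).symm
  simp_rw [this]

/-- upper bound -/
lemma N_le (X y : ℕ) : (N X (y : ℝ) : ℝ) ≤ 1 + #(SS y) * #(SS X) := by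
  classical
  have h1 : (Icc 4 X).filter (fun m => Even m ∧ AtMost m (y : ℝ)) ⊆
      insert 4 (((SS y) ×ˢ (SS X)).image (fun z => z.1 + z.2)) := by
    intro m hm
    rw [mem_filter, mem_Icc, atMost_iff] at hm
    obtain ⟨⟨h4, hX⟩, he, p, hp, hq, hpy⟩ := hm
    have hpy' : p ≤ y := by exact_mod_cast hpy
    have hpm : p ≤ m := by
      by_contra h
      push Not at h
      rw [Nat.sub_eq_zero_of_le h.le] at hq
      exact Nat.not_prime_zero hq
    obtain ⟨q, hqm⟩ : ∃ q, m = p + q := ⟨m - p, by omega⟩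
    have hqq : m - p = q := by omega
    rw [hqq] at hq
    rw [mem_insert]
    rcases hp.eq_two_or_odd' with rfl | hpo
    · left
      have h2 : Even q := by
        rw [hqm] at he
        exact (Nat.even_add.1 he).1 even_two
      have h3 : q = 2 := (hq.even_iff).1 h2
      omega
    · right
      have h2 : Odd q := by
        rw [hqm] at he
        by_contra h
        rw [Nat.not_odd_iff_even] at h
        exact (Nat.not_even_iff_odd.2 hpo) ((Nat.even_add.1 he).2 h)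
      rw [mem_image]
      refine ⟨(p, q), ?_, hqm.symm⟩
      rw [mem_product, mem_SS, mem_SS]
      have hp2 := hp.two_le
      have hq2 := hq.two_le
      have hp3 : p ≠ 2 := by rintro rfl; exact absurd hpo (by decide)
      have hq3 : q ≠ 2 := by rintro rfl; exact absurd h2 (by decide)
      refine ⟨⟨⟨by omega, hpy'⟩, hp⟩, ⟨⟨by omega, by omega⟩, hq⟩⟩
  have h2 := (card_le_card h1).trans (card_insert_le _ _)
  have h3 : #(((SS y) ×ˢ (SS X)).image (fun z => z.1 + z.2)) ≤ #(SS y) * #(SS X) := by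
    refine card_image_le.trans ?_
    rw [card_product]
  have h4 : N X (y : ℝ) ≤ 1 + #(SS y) * #(SS X) := by
    unfold N
    have := h2.trans (Nat.add_le_add_right h3 1)
    omega
  exact_mod_cast h4

/-- lower bound -/
lemma le_N (X y : ℕ) (hyX : y ≤ X) : (#(II y (X - y)) : ℝ) ≤ N X (y : ℝ) := by
  classical
  have h1 : II y (X - y) ⊆ (Icc 4 X).filter (fun m => Even m ∧ AtMost m (y : ℝ)) := by
    intro m hm
    unfold II at hm
    rw [mem_image] at hm
    obtain ⟨⟨p, q⟩, hpq, rfl⟩ := hm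
    rw [mem_product, mem_SS, mem_SS] at hpq
    obtain ⟨⟨⟨p3, py⟩, hp⟩, ⟨⟨q3, qx⟩, hq⟩⟩ := hpq
    simp only at p3 py hp q3 qx hq ⊢
    rw [mem_filter, mem_Icc, atMost_iff]
    refine ⟨⟨by omega, by omega⟩, ?_, p, hp, ?_, by exact_mod_cast py⟩
    · have hpo : Odd p := hp.odd_of_ne_two (by omega)
      have hqo : Odd q := hq.odd_of_ne_two (by omega)
      exact hpo.add_odd hqo
    · rw [Nat.add_sub_cancel_left]
      exact hq
  unfold N
  exact_mod_cast card_le_card h1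

lemma pi_eq {t : ℝ} (ht : 3 ≤ t) : pi t - 1 = #(SS ⌊t⌋₊) := by
  unfold pi
  rw [card_SS]
  exact (by norm_num : 2 ≤ 3).trans (Nat.le_floor (by exact_mod_cast ht))

lemma tl : Tendsto (fun X : ℕ => Real.log (X : ℝ)) atTop atTop :=
  Real.tendsto_log_atTop.comp tendsto_natCast_atTop_atTop

lemma tll : Tendsto (fun X : ℕ => Real.log (Real.log (X : ℝ))) atTop atTop :=
  Real.tendsto_log_atTop.comp tl

lemma ev_small (η : ℝ) (hη : 0 < η) : ∀ᶠ X : ℕ in atTop, 1 ≤ η * ((X : ℝ) / Real.log X) := by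
  have h := (Real.isLittleO_log_id_atTop).bound hη
  have h' := (tendsto_natCast_atTop_atTop (R := ℝ)).eventually h
  filter_upwards [h', eventually_ge_atTop 3] with X hX hX3
  have hX3' : (3 : ℝ) ≤ X := by exact_mod_cast hX3
  have hlog : 0 < Real.log X := Real.log_pos (by linarith)
  rw [Real.norm_of_nonneg hlog.le] at hX
  simp only [id, Real.norm_of_nonneg (by positivity : (0 : ℝ) ≤ X)] at hX
  rw [mul_div_assoc', le_div_iff₀ hlog, one_mul]
  exact hX

theorem part_one (ε : ℝ) (hε : 0 < ε) : ∃ δ : ℝ, 0 < δ ∧ ∃ X₀ : ℕ, ∀ X : ℕ, X₀ ≤ X → ∀ t : ℝ, 3 ≤ t →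
    pi t ≤ δ * Real.log X →
    |(N X t : ℝ) - (pi t - 1) * (X / Real.log X)| ≤ ε * ((pi t - 1) * (X / Real.log X)) := by
  obtain ⟨C, hC1, hC⟩ := II_lower
  have hC0 : 0 < C := by linarith
  obtain ⟨η, hη⟩ : ∃ η : ℝ, η = min (ε / 2) (1 / 2) := ⟨_, rfl⟩
  have hη0 : 0 < η := by rw [hη]; positivity
  have hη1 : η ≤ ε / 2 := by rw [hη]; exact min_le_left _ _
  have hη2 : η ≤ 1 / 2 := by rw [hη]; exact min_le_right _ _
  obtain ⟨X1, hX1⟩ := hC η hη0 hη2
  obtain ⟨X2, hX2⟩ := SS_asymp η hη0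
  obtain ⟨X3, hX3⟩ := eventually_atTop.1 ((ev_small η hη0).and (tl.eventually_ge_atTop 4))
  refine ⟨min 1 (η / C), by positivity, max X1 (max X2 X3), fun X hX t ht hpi => ?_⟩
  have g1 := hX1 X ⌊t⌋₊ ((le_max_left _ _).trans hX)
    (Nat.le_floor (by exact_mod_cast ht))
  obtain ⟨g2, g3⟩ := hX2 X (((le_max_left _ _).trans (le_max_right _ _)).trans hX)
  obtain ⟨g4, g5⟩ := hX3 X (((le_max_right _ _).trans (le_max_right _ _)).trans hX)
  have hS1 := SS_nonempty (y := ⌊t⌋₊) (Nat.le_floor (by exact_mod_cast ht))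
  rw [N_floor X (by linarith), pi_eq ht]
  have hpi' := pi_eq ht
  have hN1 := N_le X ⌊t⌋₊
  have hN2 := le_N X ⌊t⌋₊
  obtain ⟨S, hS⟩ : ∃ S : ℝ, S = (#(SS ⌊t⌋₊) : ℝ) := ⟨_, rfl⟩
  obtain ⟨l, hl⟩ : ∃ l : ℝ, l = Real.log X := ⟨_, rfl⟩
  obtain ⟨N', hN'⟩ : ∃ N' : ℝ, N' = (N X ((⌊t⌋₊ : ℕ) : ℝ) : ℝ) := ⟨_, rfl⟩
  rw [← hl] at hpi g1 g2 g3 g4 g5 ⊢
  rw [← hS] at hpi' g1 hN1 hS1 ⊢
  rw [← hN'] at hN1 hN2 ⊢
  have hl0 : 0 < l := by linarith
  have hSd : S ≤ η / C * l := by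
    have h1 : min 1 (η / C) * l ≤ η / C * l := mul_le_mul_of_nonneg_right (min_le_right _ _) hl0.le
    linarith
  have hSl : S ≤ l := by
    have h1 : min 1 (η / C) * l ≤ 1 * l := mul_le_mul_of_nonneg_right (min_le_left _ _) hl0.le
    linarith
  obtain ⟨g6, g7⟩ := g1 hSl
  have h8 := hN2 g6
  obtain ⟨I, hI⟩ : ∃ I : ℝ, I = (#(II ⌊t⌋₊ (X - ⌊t⌋₊)) : ℝ) := ⟨_, rfl⟩
  rw [← hI] at g7 h8
  have hI0 : 0 ≤ I := by rw [hI]; exact Nat.cast_nonneg _
  obtain ⟨A, hA⟩ : ∃ A : ℝ, A = (X : ℝ) / l := ⟨_, rfl⟩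
  rw [← hA] at g2 g3 g4 g7 ⊢
  have hA0 : 0 < A := by nlinarith
  have h9 : C * S / l ≤ η := by
    rw [div_le_iff₀ hl0]
    calc C * S ≤ C * (η / C * l) := by gcongr
      _ = η * l := by field_simp
  have h10 : S * ((1 - η) * A) ≤ I * (1 + η) := by
    refine g7.trans ?_
    gcongr
  have hSA : 0 < S * A := by positivity
  rw [abs_le]
  constructor
  · -- lower
    have h11 : S * A * (1 - 2 * η) ≤ I := by
      have h12 : S * A * (1 - 2 * η) * (1 + η) ≤ I * (1 + η) := by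
        refine le_trans ?_ h10
        have : S * A * (1 - 2 * η) * (1 + η) = S * A * (1 - η - 2 * η ^ 2) := by ring
        rw [this]
        have h13 : S * ((1 - η) * A) = S * A * (1 - η) := by ring
        rw [h13]
        apply mul_le_mul_of_nonneg_left _ hSA.le
        nlinarith
      exact le_of_mul_le_mul_right h12 (by linarith)
    nlinarith
  · -- upper
    have h11 : S * (#(SS X) : ℝ) ≤ S * ((1 + η) * A) := by gcongr
    have h12 : 1 ≤ η * (S * A) := by nlinarith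
    nlinarith

theorem part_two : ∃ c : ℝ, 0 < c ∧ ∃ X₀ : ℕ, ∀ X : ℕ, X₀ ≤ X → ∀ t : ℝ, 3 ≤ t →
    c * X * min 1 (pi t / Real.log X) ≤ N X t := by
  obtain ⟨C, hC1, hC⟩ := II_lower
  have hC0 : 0 < C := by linarith
  obtain ⟨X1, hX1⟩ := hC (1 / 2) (by norm_num) le_rfl
  obtain ⟨X3, hX3⟩ := eventually_atTop.1 (tl.eventually_ge_atTop 4)
  -- the case of few primes
  have key : ∀ X : ℕ, max X1 X3 ≤ X → ∀ t : ℝ, 3 ≤ t → pi t ≤ Real.log X →
      1 / (4 * (1 + C)) * X * (pi t / Real.log X) ≤ N X t := by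
    intro X hX t ht hpi
    have g1 := hX1 X ⌊t⌋₊ ((le_max_left _ _).trans hX) (Nat.le_floor (by exact_mod_cast ht))
    have g5 := hX3 X ((le_max_right _ _).trans hX)
    have hS1 := SS_nonempty (y := ⌊t⌋₊) (Nat.le_floor (by exact_mod_cast ht))
    rw [N_floor X (by linarith)]
    have hpi' := pi_eq ht
    have hN2 := le_N X ⌊t⌋₊
    obtain ⟨S, hS⟩ : ∃ S : ℝ, S = (#(SS ⌊t⌋₊) : ℝ) := ⟨_, rfl⟩
    obtain ⟨l, hl⟩ : ∃ l : ℝ, l = Real.log X := ⟨_, rfl⟩
    obtain ⟨N', hN'⟩ : ∃ N' : ℝ, N' = (N X ((⌊t⌋₊ : ℕ) : ℝ) : ℝ) := ⟨_, rfl⟩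
    rw [← hl] at hpi g1 g5 ⊢
    rw [← hS] at hpi' g1 hS1
    rw [← hN'] at hN2 ⊢
    have hl0 : 0 < l := by linarith
    obtain ⟨g6, g7⟩ := g1 (by linarith)
    have h8 := hN2 g6
    obtain ⟨I, hI⟩ : ∃ I : ℝ, I = (#(II ⌊t⌋₊ (X - ⌊t⌋₊)) : ℝ) := ⟨_, rfl⟩
    rw [← hI] at g7 h8
    have hI0 : 0 ≤ I := by rw [hI]; exact Nat.cast_nonneg _
    have h9 : C * S / l ≤ C := by
      rw [div_le_iff₀ hl0]
      have : S ≤ l := by linarith
      gcongr
    have h10 : S * ((1 - 1 / 2) * (X / l)) ≤ I * (1 + C) := g7.trans (by gcongr)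
    have h11 : pi t ≤ 2 * S := by linarith
    refine le_trans ?_ h8
    have h12 : 1 / (4 * (1 + C)) * X * (pi t / l) ≤ 1 / (4 * (1 + C)) * X * (2 * S / l) := by gcongr
    refine h12.trans ?_
    have h13 : 1 / (4 * (1 + C)) * X * (2 * S / l) = (S * ((1 - 1 / 2) * (X / l))) / (1 + C) := by
      field_simp
      ring
    rw [h13, div_le_iff₀ (by linarith)]
    exact h10
  refine ⟨1 / (8 * (1 + C)), by positivity, max X1 X3, fun X hX t ht => ?_⟩
  have g5 := hX3 X ((le_max_right _ _).trans hX)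
  have hl0 : 0 < Real.log X := by linarith
  by_cases h : pi t ≤ Real.log X
  · have h1 := key X hX t ht h
    have h2 : 0 ≤ pi t := by unfold pi; positivity
    have h3 : min 1 (pi t / Real.log X) ≤ pi t / Real.log X := min_le_right _ _
    have h4 : 0 ≤ pi t / Real.log X := by positivity
    have h5 : 0 ≤ min 1 (pi t / Real.log X) := by positivity
    calc 1 / (8 * (1 + C)) * X * min 1 (pi t / Real.log X)
        ≤ 1 / (4 * (1 + C)) * X * (pi t / Real.log X) := by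
          gcongr
          norm_num
      _ ≤ _ := h1
  · push Not at h
    obtain ⟨k, hk⟩ : ∃ k : ℕ, k = ⌊Real.log X⌋₊ := ⟨_, rfl⟩
    have hk1 : (k : ℝ) ≤ Real.log X := by rw [hk]; exact Nat.floor_le hl0.le
    have hk2 : Real.log X < k + 1 := by rw [hk]; exact Nat.lt_floor_add_one _
    have hk4 : 3 ≤ k := by
      have : (3 : ℝ) < k + 1 := by linarith
      have h' : (3 : ℝ) < ((k + 1 : ℕ) : ℝ) := by push_cast; exact this
      have : 3 < k + 1 := by exact_mod_cast h'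
      omega
    obtain ⟨y, hy⟩ : ∃ y : ℕ, y = Nat.nth Nat.Prime (k - 1) := ⟨_, rfl⟩
    have hyp : y.Prime := by rw [hy]; exact Nat.prime_nth_prime _
    have hpiy : Nat.primeCounting y = k := by
      have h1 : Nat.primeCounting' (Nat.nth Nat.Prime (k - 1)) = k - 1 := Nat.primeCounting'_nth_eq _
      rw [hy, Nat.primeCounting, Nat.primeCounting', Nat.count_succ]
      rw [Nat.primeCounting'] at h1
      rw [h1, if_pos (Nat.prime_nth_prime _)]
      omega
    have hy3 : 3 ≤ y := by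
      by_contra hcon
      push Not at hcon
      have h1 : Nat.primeCounting y ≤ Nat.primeCounting 2 := Nat.monotone_primeCounting (by omega)
      have h2 : Nat.primeCounting 2 = 1 := by decide
      omega
    have hpiy' : pi (y : ℝ) = k := by
      unfold pi
      rw [Nat.floor_natCast, hpiy]
    have h1 := key X hX (y : ℝ) (by exact_mod_cast hy3) (by rw [hpiy']; exact hk1)
    rw [hpiy'] at h1
    have hyt : (y : ℝ) ≤ t := by
      by_contra hcon
      push Not at hcon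
      have h2 : Nat.primeCounting ⌊t⌋₊ ≤ Nat.primeCounting y :=
        Nat.monotone_primeCounting (by
          have := Nat.floor_le (by linarith : 0 ≤ t)
          have h3 : ((⌊t⌋₊ : ℕ) : ℝ) ≤ y := by linarith
          exact_mod_cast h3)
      have h3 : pi t ≤ k := by
        unfold pi
        rw [← hpiy]
        exact_mod_cast h2
      linarith
    have h2 : (N X (y : ℝ) : ℝ) ≤ N X t := by exact_mod_cast mono_N X hyt
    refine le_trans ?_ (h1.trans h2)
    have h3 : (1 / 2 : ℝ) ≤ k / Real.log X := by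
      rw [le_div_iff₀ hl0]
      linarith
    calc 1 / (8 * (1 + C)) * X * min 1 (pi t / Real.log X)
        ≤ 1 / (8 * (1 + C)) * X * 1 := by gcongr; exact min_le_left _ _
      _ = 1 / (4 * (1 + C)) * X * (1 / 2) := by field_simp; ring
      _ ≤ _ := by gcongr

open Classical in
theorem part_three (κ : ℝ) (hκ : 0 < κ) : ∃ c : ℝ, 0 < c ∧ ∃ X₀ : ℕ, ∀ X : ℕ, X₀ ≤ X →
    c * X ≤ #{m ∈ Icc 4 X | Even m ∧ AtMost m (κ * (Real.log m * Real.log (Real.log m)))} := by
  obtain ⟨c, hc0, X1, hc⟩ := part_two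
  obtain ⟨d, hd0, hd⟩ := cheb_SS
  obtain ⟨e, he⟩ : ∃ e : ℝ, e = min 1 (d * κ / 16) := ⟨_, rfl⟩
  have he0 : 0 < e := by rw [he]; positivity
  refine ⟨c * e / 2, by positivity, ?_⟩
  have tlll : Tendsto (fun X : ℕ => Real.log (Real.log (Real.log (X : ℝ)))) atTop atTop :=
    Real.tendsto_log_atTop.comp tll
  have ev1 : ∀ᶠ X : ℕ in atTop, Real.log (κ / 4) + Real.log (Real.log (Real.log (X : ℝ))) ≤
      Real.log (Real.log (X : ℝ)) := by
    have h := (Real.isLittleO_log_id_atTop).bound (show (0 : ℝ) < 1 / 2 by norm_num)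
    have h' := tll.eventually h
    filter_upwards [h', tll.eventually_ge_atTop (max 1 (2 * |Real.log (κ / 4)|))] with X h1 h2
    have h3 := (le_max_left _ _).trans h2
    have h4 := (le_max_right _ _).trans h2
    simp only [id] at h1
    rw [Real.norm_of_nonneg (Real.log_nonneg h3), Real.norm_of_nonneg (by linarith)] at h1
    have h5 := le_abs_self (Real.log (κ / 4))
    linarith
  have ev2 : ∀ᶠ X : ℕ in atTop, Real.sqrt X + 1 ≤ c * e / 2 * X := by
    have h1 : Tendsto (fun X : ℕ => Real.sqrt (X : ℝ)) atTop atTop :=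
      Real.tendsto_sqrt_atTop.comp tendsto_natCast_atTop_atTop
    filter_upwards [h1.eventually_ge_atTop (max 1 (4 / (c * e)))] with X h2
    have h3 := (le_max_left _ _).trans h2
    have h4 := (le_max_right _ _).trans h2
    have h5 : Real.sqrt X * Real.sqrt X = X := Real.mul_self_sqrt (Nat.cast_nonneg _)
    have hce : 0 < c * e := by positivity
    rw [div_le_iff₀ hce] at h4
    have h6 : Real.sqrt X + 1 ≤ 2 * Real.sqrt X := by linarith
    refine h6.trans ?_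
    have h7 : c * e / 2 * (X : ℝ) = (Real.sqrt X * (c * e)) * Real.sqrt X / 2 := by
      have h9 : (Real.sqrt X * (c * e)) * Real.sqrt X / 2 = c * e / 2 * (Real.sqrt X * Real.sqrt X) := by ring
      rw [h9, h5]
    have h8 : 4 * Real.sqrt X ≤ (Real.sqrt X * (c * e)) * Real.sqrt X :=
      mul_le_mul_of_nonneg_right h4 (Real.sqrt_nonneg _)
    linarith
  obtain ⟨X2, hX2⟩ := eventually_atTop.1 ((ev1.and ev2).and
    (((tl.eventually_ge_atTop (4 * (12 / κ + 4))).and (tll.eventually_ge_atTop 4))))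
  refine ⟨max X1 X2, fun X hX => ?_⟩
  obtain ⟨⟨k1, k2⟩, k3, k4⟩ := hX2 X ((le_max_right _ _).trans hX)
  have hX0 : (0 : ℝ) < X := by
    by_contra hcon
    have : (X : ℝ) = 0 := le_antisymm (not_lt.1 hcon) (Nat.cast_nonneg _)
    rw [this, Real.log_zero] at k3
    have : 0 < 12 / κ := by positivity
    linarith
  obtain ⟨l, hl⟩ : ∃ l : ℝ, l = Real.log X := ⟨_, rfl⟩
  obtain ⟨l2, hl2⟩ : ∃ l2 : ℝ, l2 = Real.log l := ⟨_, rfl⟩
  rw [← hl] at k1 k3 k4
  rw [← hl2] at k1 k4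
  have h12 : 0 < 12 / κ := by positivity
  have hl0 : 0 < l := by linarith
  have hl20 : 0 < l2 := by linarith
  -- the range
  obtain ⟨t, ht⟩ : ∃ t : ℝ, t = κ / 4 * (l * l2) := ⟨_, rfl⟩
  have ht3 : 3 ≤ t := by
    have h1 : 12 / κ * 4 ≤ l * l2 := mul_le_mul (by linarith) k4 (by norm_num) hl0.le
    rw [ht]
    have h2 : κ / 4 * (12 / κ * 4) = 12 := by field_simp
    have h3 : κ / 4 * (12 / κ * 4) ≤ κ / 4 * (l * l2) := mul_le_mul_of_nonneg_left h1 (by positivity)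
    linarith
  have h1 := hc X ((le_max_left _ _).trans hX) t ht3
  -- the number of primes up to t
  have hpi : d * κ / 16 ≤ pi t / l := by
    have hf3 : 3 ≤ ⌊t⌋₊ := Nat.le_floor (by exact_mod_cast ht3)
    have h2 := hd ⌊t⌋₊ hf3
    rw [← pi_eq ht3] at h2
    have hf3' : (3 : ℝ) ≤ ⌊t⌋₊ := by exact_mod_cast hf3
    have hft : (⌊t⌋₊ : ℝ) ≤ t := Nat.floor_le (by linarith)
    have hft2 : t / 2 ≤ (⌊t⌋₊ : ℝ) := by
      have := Nat.lt_floor_add_one t
      linarith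
    have hlogf : 0 < Real.log (⌊t⌋₊ : ℝ) := Real.log_pos (by linarith)
    have h3 : Real.log (⌊t⌋₊ : ℝ) ≤ 2 * l2 := by
      calc Real.log (⌊t⌋₊ : ℝ) ≤ Real.log t := Real.log_le_log (by linarith) hft
        _ = Real.log (κ / 4) + (l2 + Real.log l2) := by
            rw [ht, Real.log_mul (by positivity) (by positivity), Real.log_mul hl0.ne' hl20.ne', hl2]
        _ ≤ 2 * l2 := by linarith
    have h4 : d * ((t / 2) / (2 * l2)) ≤ d * ((⌊t⌋₊ : ℝ) / Real.log (⌊t⌋₊ : ℝ)) := by gcongr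
    have h5 : d * ((t / 2) / (2 * l2)) = d * κ / 16 * l := by
      rw [ht]; field_simp; ring
    rw [le_div_iff₀ hl0, ← h5]
    linarith
  have h2 : e ≤ min 1 (pi t / l) := by
    rw [he]
    exact min_le_min le_rfl hpi
  rw [← hl] at h1
  have h3 : c * e * X ≤ N X t := by
    refine le_trans ?_ h1
    calc c * e * X = c * X * e := by ring
      _ ≤ _ := by gcongr
  -- comparison of `N X t` with the set in question
  have h4 : N X t ≤ #{m ∈ Icc 4 X | Even m ∧ AtMost m (κ * (Real.log m * Real.log (Real.log m)))} +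
      #(Icc 1 ⌊Real.sqrt X⌋₊) := by
    unfold N
    refine le_trans (card_le_card ?_) (card_union_le _ _)
    intro m hm
    rw [mem_filter, mem_Icc] at hm
    rw [mem_union, mem_filter, mem_Icc, mem_Icc]
    by_cases hms : (m : ℝ) ≤ Real.sqrt X
    · right
      exact ⟨by omega, Nat.le_floor hms⟩
    · left
      push Not at hms
      refine ⟨hm.1, hm.2.1, ?_⟩
      obtain ⟨k, g1, g2⟩ := hm.2.2
      refine ⟨k, g1, g2.trans ?_⟩
      have hs0 : 0 < Real.sqrt X := Real.sqrt_pos.2 hX0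
      have e1 : l / 2 ≤ Real.log m := by
        calc l / 2 = Real.log (Real.sqrt X) := by rw [Real.log_sqrt hX0.le, hl]
          _ ≤ Real.log m := Real.log_le_log hs0 hms.le
      have e2 : l2 / 2 ≤ Real.log (Real.log m) := by
        have e3 : Real.log (l / 2) ≤ Real.log (Real.log m) := Real.log_le_log (by linarith) e1
        rw [Real.log_div hl0.ne' (by norm_num), ← hl2] at e3
        have := Real.log_two_lt_d9
        linarith
      rw [ht]
      have e4 : (l / 2) * (l2 / 2) ≤ Real.log m * Real.log (Real.log m) :=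
        mul_le_mul e1 e2 (by linarith) (by linarith)
      nlinarith
  have h5 : (N X t : ℝ) ≤ #{m ∈ Icc 4 X | Even m ∧ AtMost m (κ * (Real.log m * Real.log (Real.log m)))} +
      Real.sqrt X := by
    have h6 : (#(Icc 1 ⌊Real.sqrt X⌋₊) : ℝ) ≤ Real.sqrt X := by
      rw [Nat.card_Icc, Nat.add_sub_cancel]
      exact Nat.floor_le (Real.sqrt_nonneg _)
    have h7 : (N X t : ℝ) ≤ #{m ∈ Icc 4 X | Even m ∧ AtMost m (κ * (Real.log m * Real.log (Real.log m)))} +
      #(Icc 1 ⌊Real.sqrt X⌋₊) := by exact_mod_cast h4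
    linarith
  linarith

open Classical in
theorem part_four (κ : ℝ) (hκ : 0 < κ) (ε : ℝ) (hε : 0 < ε) : ∃ X₀ : ℕ, ∀ X : ℕ, X₀ ≤ X →
    (1 / 2 - κ - ε) * X ≤
      #{m ∈ Icc 4 X | Even m ∧ ¬ AtMost m (κ * (Real.log m * Real.log (Real.log m)))} := by
  obtain ⟨η, hη⟩ : ∃ η : ℝ, η = min 1 (ε / (8 * (κ + 1))) := ⟨_, rfl⟩
  have hη0 : 0 < η := by rw [hη]; positivity
  have hη1 : η ≤ 1 := by rw [hη]; exact min_le_left _ _
  have hηε : η * (8 * (κ + 1)) ≤ ε := by
    have : η ≤ ε / (8 * (κ + 1)) := by rw [hη]; exact min_le_right _ _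
    rwa [le_div_iff₀ (by positivity)] at this
  obtain ⟨X1, hX1⟩ := SS_asymp η hη0
  have ev1 : ∀ᶠ X : ℕ in atTop, 0 ≤ Real.log κ + Real.log (Real.log (Real.log (X : ℝ))) := by
    have tlll : Tendsto (fun X : ℕ => Real.log (Real.log (Real.log (X : ℝ)))) atTop atTop :=
      Real.tendsto_log_atTop.comp tll
    filter_upwards [tlll.eventually_ge_atTop (-Real.log κ)] with X hX
    linarith
  have ev2 : ∀ᶠ X : ℕ in atTop, 3 ≤ ε / 2 * (X : ℝ) := by
    have := (tendsto_natCast_atTop_atTop (R := ℝ)).const_mul_atTop (show 0 < ε / 2 by positivity)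
    exact this.eventually_ge_atTop 3
  obtain ⟨X2, hX2⟩ := eventually_atTop.1 ((ev1.and ev2).and
    (((tl.eventually_ge_atTop (4 * (((X1 : ℝ) + 4) / κ) + 4)).and (tll.eventually_ge_atTop 4))))
  refine ⟨max X1 X2, fun X hX => ?_⟩
  obtain ⟨⟨k1, k2⟩, k3, k4⟩ := hX2 X ((le_max_right _ _).trans hX)
  have hX0 : (0 : ℝ) < X := by
    by_contra hcon
    have : (X : ℝ) = 0 := le_antisymm (not_lt.1 hcon) (Nat.cast_nonneg _)
    rw [this] at k2
    linarith
  obtain ⟨_, g2⟩ := hX1 X ((le_max_left _ _).trans hX)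
  obtain ⟨l, hl⟩ : ∃ l : ℝ, l = Real.log X := ⟨_, rfl⟩
  obtain ⟨l2, hl2⟩ : ∃ l2 : ℝ, l2 = Real.log l := ⟨_, rfl⟩
  rw [← hl] at k1 k3 k4 g2
  rw [← hl2] at k1 k4
  have h12 : 0 < ((X1 : ℝ) + 4) / κ := by positivity
  have hl0 : 0 < l := by linarith
  have hl20 : 0 < l2 := by linarith
  obtain ⟨t, ht⟩ : ∃ t : ℝ, t = κ * (l * l2) := ⟨_, rfl⟩
  have htX : (X1 : ℝ) + 4 ≤ t := by
    have h1 : ((X1 : ℝ) + 4) / κ * 4 ≤ l * l2 := mul_le_mul (by linarith) k4 (by norm_num) hl0.le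
    rw [ht]
    have h2 : κ * (((X1 : ℝ) + 4) / κ * 4) = 4 * ((X1 : ℝ) + 4) := by field_simp
    have h3 : κ * (((X1 : ℝ) + 4) / κ * 4) ≤ κ * (l * l2) := mul_le_mul_of_nonneg_left h1 hκ.le
    have h4 : (0 : ℝ) ≤ X1 := Nat.cast_nonneg _
    linarith
  have hX1r : (0 : ℝ) ≤ X1 := Nat.cast_nonneg _
  have ht3 : 3 ≤ t := by linarith
  have hfX1 : X1 ≤ ⌊t⌋₊ := Nat.le_floor (by linarith)
  have hf3 : 3 ≤ ⌊t⌋₊ := Nat.le_floor (by exact_mod_cast ht3)
  have hf3' : (3 : ℝ) ≤ ⌊t⌋₊ := by exact_mod_cast hf3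
  have hft : (⌊t⌋₊ : ℝ) ≤ t := Nat.floor_le (by linarith)
  obtain ⟨_, g3⟩ := hX1 ⌊t⌋₊ hfX1
  -- `#(SS ⌊t⌋) ≤ (1 + η) κ l`
  have hlogt : l2 ≤ Real.log t := by
    rw [ht, Real.log_mul hκ.ne' (by positivity), Real.log_mul hl0.ne' hl20.ne', ← hl2]
    linarith
  have hanti : (⌊t⌋₊ : ℝ) / Real.log (⌊t⌋₊ : ℝ) ≤ t / Real.log t := by
    have he3 := Real.exp_one_lt_d9
    have h1 := Real.log_div_self_antitoneOn (a := (⌊t⌋₊ : ℝ)) (b := t) (by
      rw [Set.mem_Ici]; linarith) (by rw [Set.mem_Ici]; linarith) hft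
    simp only at h1
    have e1 : 0 < Real.log (⌊t⌋₊ : ℝ) := Real.log_pos (by linarith)
    have e2 : 0 < Real.log t := by linarith
    rw [div_le_div_iff₀ (by linarith) (by linarith)] at h1
    rw [div_le_div_iff₀ e1 e2]
    linarith
  have hS : (#(SS ⌊t⌋₊) : ℝ) ≤ (1 + η) * (κ * l) := by
    refine g3.trans ?_
    apply mul_le_mul_of_nonneg_left _ (by linarith)
    refine hanti.trans ?_
    have : t / Real.log t ≤ t / l2 := by gcongr
    refine this.trans (le_of_eq ?_)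
    rw [ht]
    field_simp
  have hN1 := N_le X ⌊t⌋₊
  rw [← N_floor X (by linarith)] at hN1
  have hN2 : (N X t : ℝ) ≤ 1 + (1 + η) ^ 2 * κ * X := by
    refine hN1.trans ?_
    have h1 : (#(SS ⌊t⌋₊) : ℝ) * #(SS X) ≤ ((1 + η) * (κ * l)) * ((1 + η) * (X / l)) :=
      mul_le_mul hS g2 (Nat.cast_nonneg _) (by positivity)
    have h2 : ((1 + η) * (κ * l)) * ((1 + η) * ((X : ℝ) / l)) = (1 + η) ^ 2 * κ * X := by
      field_simp
    linarith
  have hN3 : (N X t : ℝ) ≤ 1 + (κ + ε / 2) * X := by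
    refine hN2.trans ?_
    have h1 : (1 + η) ^ 2 * κ ≤ κ + ε / 2 := by
      have : (1 + η) ^ 2 ≤ 1 + 3 * η := by nlinarith
      nlinarith
    have h2 := mul_le_mul_of_nonneg_right h1 hX0.le
    linarith
  -- the even integers
  have hev : (X : ℝ) / 2 - 2 ≤ #{m ∈ Icc 4 X | Even m} := by
    have h1 : (Icc 2 (X / 2)).image (fun k => 2 * k) ⊆ (Icc 4 X).filter (fun m => Even m) := by
      intro m hm
      rw [mem_image] at hm
      obtain ⟨k, hk, rfl⟩ := hm
      rw [mem_Icc] at hk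
      rw [mem_filter, mem_Icc]
      exact ⟨⟨by omega, by omega⟩, even_two_mul k⟩
    have h2 := card_le_card h1
    rw [card_image_of_injective _ (fun a b h => by simpa using h), Nat.card_Icc] at h2
    have h3 : X ≤ 2 * #{m ∈ Icc 4 X | Even m} + 3 := by omega
    have h4 : (X : ℝ) ≤ 2 * #{m ∈ Icc 4 X | Even m} + 3 := by exact_mod_cast h3
    linarith
  have hsplit : #{m ∈ Icc 4 X | Even m} ≤
      #{m ∈ Icc 4 X | Even m ∧ ¬ AtMost m (κ * (Real.log m * Real.log (Real.log m)))} + N X t := by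
    unfold N
    refine le_trans (card_le_card ?_) (card_union_le _ _)
    intro m hm
    rw [mem_filter, mem_Icc] at hm
    rw [mem_union, mem_filter, mem_filter, mem_Icc]
    by_cases h : AtMost m (κ * (Real.log m * Real.log (Real.log m)))
    · right
      refine ⟨hm.1, hm.2, ?_⟩
      obtain ⟨k, e1, e2⟩ := h
      refine ⟨k, e1, e2.trans ?_⟩
      rw [ht]
      have hm4 : (4 : ℝ) ≤ m := by exact_mod_cast hm.1.1
      have hmX : (m : ℝ) ≤ X := by exact_mod_cast hm.1.2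
      have e3 : Real.log m ≤ l := by rw [hl]; exact Real.log_le_log (by linarith) hmX
      have e4 : 1 ≤ Real.log m := by
        rw [Real.le_log_iff_exp_le (by linarith)]
        have := Real.exp_one_lt_d9
        linarith
      have e5 : Real.log (Real.log m) ≤ l2 := by rw [hl2]; exact Real.log_le_log (by linarith) e3
      have e6 : 0 ≤ Real.log (Real.log m) := Real.log_nonneg e4
      gcongr
    · left
      exact ⟨hm.1, hm.2, h⟩
  have hsplit' : (#{m ∈ Icc 4 X | Even m} : ℝ) ≤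
      #{m ∈ Icc 4 X | Even m ∧ ¬ AtMost m (κ * (Real.log m * Real.log (Real.log m)))} + N X t := by
    exact_mod_cast hsplit
  linarith

end Pool.Agent.J6H28.GD
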