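import Pool.Agent.J6H28.GD.Avg

set_option autoImplicit false

/-!
# The number of the sums `p + q` of a small prime and a prime
-/

namespace Pool.Agent.J6H28.GD

open Finset Filter Topology
open Pool.Agent.H197R2.PG (gg QQ one_le_gg gg_two_mul_le pair_sieve_sharp cnt_le cnt_swap cnt_self)

theorem second_moment : ∃ C : ℝ, 1 ≤ C ∧ ∃ u0 : ℕ, ∀ (x Y : ℕ) (S : Finset ℕ), u0 ≤ x →
    2 * (Y : ℝ) ≤ (x : ℝ) ^ (1 / 16 : ℝ) → S ⊆ Icc 1 Y →
    ((#S : ℝ) * #(QQ x)) ^ 2 ≤ #((S ×ˢ QQ x).image (fun z => z.1 + z.2)) * ((#S : ℝ) * #(QQ x) +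
      C * (∑ z ∈ S.offDiag, gg (2 * Nat.dist z.1 z.2)) * x / Real.log x ^ 2) := by
  classical
  obtain ⟨C, hC, u0, hps⟩ := pair_sieve_sharp
  refine ⟨C, hC, max u0 1, ?_⟩
  intro x Y S hx hY hS
  have hx1 : 1 ≤ x := (le_max_right _ _).trans hx
  have hxu : u0 ≤ x := (le_max_left _ _).trans hx
  have hx1' : (1 : ℝ) ≤ x := by exact_mod_cast hx1
  have hYx : Y ≤ x := by
    have h1 : (x : ℝ) ^ (1 / 16 : ℝ) ≤ (x : ℝ) ^ (1 : ℝ) :=
      Real.rpow_le_rpow_of_exponent_le hx1' (by norm_num)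
    rw [Real.rpow_one] at h1
    have h2 : (0 : ℝ) ≤ Y := Nat.cast_nonneg _
    have h3 : (Y : ℝ) ≤ x := by linarith
    exact_mod_cast h3
  set Q := QQ x with hQ
  set Pairs := S ×ˢ Q with hPairs
  set f : ℕ × ℕ → ℕ := fun z => z.1 + z.2 with hf
  set I := Pairs.image f with hI
  set r : ℕ → ℕ := fun m => #(Pairs.filter (fun z => f z = m)) with hr
  have hcardP : #Pairs = ∑ m ∈ I, r m := Finset.card_eq_sum_card_image f Pairs
  have hcardP' : (#Pairs : ℝ) = (#S : ℝ) * #Q := by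
    rw [hPairs, Finset.card_product]
    push_cast
    rfl
  have hCS : (#Pairs : ℝ) ^ 2 ≤ #I * ∑ m ∈ I, (r m : ℝ) ^ 2 := by
    rw [hcardP]
    push_cast
    exact sq_sum_le_card_mul_sum_sq
  -- the second moment
  have hmom : ∑ m ∈ I, (r m : ℝ) ^ 2 ≤ (#S : ℝ) * #Q +
      C * (∑ z ∈ S.offDiag, gg (2 * Nat.dist z.1 z.2)) * x / Real.log x ^ 2 := by
    have e1 : ∑ m ∈ I, (r m) ^ 2 = ∑ z ∈ Pairs, r (f z) := by
      rw [Finset.sum_comp r f]
      apply Finset.sum_congr rfl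
      intro m _
      rw [smul_eq_mul, sq]
    have e2 : ∑ z ∈ Pairs, r (f z) = ∑ a ∈ S, ∑ b ∈ S,
        ∑ q ∈ Q, #(Q.filter (fun q' => b + q' = a + q)) := by
      rw [hPairs, Finset.sum_product]
      apply Finset.sum_congr rfl
      intro a _
      rw [Finset.sum_comm]
      apply Finset.sum_congr rfl
      intro q _
      simp only [hr, hf, Finset.card_filter, hPairs]
      rw [Finset.sum_product]
    have e3 : ∑ a ∈ S, ∑ b ∈ S, ∑ q ∈ Q, #(Q.filter (fun q' => b + q' = a + q)) =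
        ∑ z ∈ S ×ˢ S, ∑ q ∈ Q, #(Q.filter (fun q' => z.2 + q' = z.1 + q)) := by
      rw [Finset.sum_product]
    have e4 : ∑ z ∈ S ×ˢ S, ∑ q ∈ Q, #(Q.filter (fun q' => z.2 + q' = z.1 + q)) =
        ∑ z ∈ S.diag, ∑ q ∈ Q, #(Q.filter (fun q' => z.2 + q' = z.1 + q)) +
        ∑ z ∈ S.offDiag, ∑ q ∈ Q, #(Q.filter (fun q' => z.2 + q' = z.1 + q)) := by
      rw [← Finset.diag_union_offDiag, Finset.sum_union (Finset.disjoint_diag_offDiag S)]
    have e5 : ∑ z ∈ S.diag, ∑ q ∈ Q, #(Q.filter (fun q' => z.2 + q' = z.1 + q)) ≤ #S * #Q := by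
      rw [← Finset.diag_card S, ← smul_eq_mul, ← Finset.sum_const]
      apply Finset.sum_le_sum
      intro z hz
      rw [Finset.mem_diag] at hz
      rw [← hz.2]
      exact cnt_self x z.1
    have e6 : ∀ z ∈ S.offDiag, ((∑ q ∈ Q, #(Q.filter (fun q' => z.2 + q' = z.1 + q)) : ℕ) : ℝ) ≤
        C * gg (2 * Nat.dist z.1 z.2) * x / Real.log x ^ 2 := by
      intro z hz
      rw [mem_offDiag] at hz
      have hz1 := mem_Icc.mp (hS hz.1)
      have hz2 := mem_Icc.mp (hS hz.2.1)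
      have hd0 : 0 < Nat.dist z.1 z.2 := Nat.dist_pos_of_ne hz.2.2
      have hdY : Nat.dist z.1 z.2 ≤ Y := by
        unfold Nat.dist
        omega
      have hdY' : 2 * (Nat.dist z.1 z.2 : ℝ) ≤ (x : ℝ) ^ (1 / 16 : ℝ) := by
        have : (Nat.dist z.1 z.2 : ℝ) ≤ Y := by exact_mod_cast hdY
        linarith
      have hbound := hps (Nat.dist z.1 z.2) 0 x hd0 hxu hdY'
      have hcnt : ∑ q ∈ Q, #(Q.filter (fun q' => z.2 + q' = z.1 + q)) ≤
          #((Ioc 0 (0 + x)).filter (fun n => n.Prime ∧ (n + Nat.dist z.1 z.2).Prime)) := by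
        rcases lt_or_gt_of_ne hz.2.2 with h | h
        · have e : Nat.dist z.1 z.2 = z.2 - z.1 := Nat.dist_eq_sub_of_le h.le
          rw [e, hQ, cnt_swap]
          exact cnt_le x z.2 z.1 h
        · have e : Nat.dist z.1 z.2 = z.1 - z.2 := Nat.dist_eq_sub_of_le_right h.le
          rw [e]
          exact cnt_le x z.1 z.2 h
      calc ((∑ q ∈ Q, #(Q.filter (fun q' => z.2 + q' = z.1 + q)) : ℕ) : ℝ)
          ≤ (#((Ioc 0 (0 + x)).filter (fun n => n.Prime ∧ (n + Nat.dist z.1 z.2).Prime)) : ℝ) := by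
            exact_mod_cast hcnt
        _ ≤ _ := hbound
    have e7 : ∑ m ∈ I, (r m : ℝ) ^ 2 = ((∑ m ∈ I, (r m) ^ 2 : ℕ) : ℝ) := by push_cast; rfl
    rw [e7, e1, e2, e3, e4]
    push_cast
    have e8 : (∑ z ∈ S.diag, ∑ q ∈ Q, (#(Q.filter (fun q' => z.2 + q' = z.1 + q)) : ℝ)) ≤
        (#S : ℝ) * #Q := by exact_mod_cast e5
    have e9 : (∑ z ∈ S.offDiag, ∑ q ∈ Q, (#(Q.filter (fun q' => z.2 + q' = z.1 + q)) : ℝ)) ≤
        C * (∑ z ∈ S.offDiag, gg (2 * Nat.dist z.1 z.2)) * x / Real.log x ^ 2 := by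
      have e10 : C * (∑ z ∈ S.offDiag, gg (2 * Nat.dist z.1 z.2)) * x / Real.log x ^ 2 =
          ∑ z ∈ S.offDiag, C * gg (2 * Nat.dist z.1 z.2) * x / Real.log x ^ 2 := by
        rw [Finset.mul_sum, Finset.sum_mul, Finset.sum_div]
      rw [e10]
      apply Finset.sum_le_sum
      intro z hz
      have := e6 z hz
      push_cast at this
      exact this
    linarith
  rw [← hcardP']
  rw [← hcardP'] at hmom
  exact hCS.trans (mul_le_mul_of_nonneg_left hmom (Nat.cast_nonneg _))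

lemma card_SS (y : ℕ) (hy : 2 ≤ y) : (#(SS y) : ℝ) = (Nat.primeCounting y : ℝ) - 1 := by
  classical
  have h1 : Nat.primeCounting y = #((Icc 2 y).filter Nat.Prime) := by
    rw [Nat.primeCounting, Nat.primeCounting', Nat.count_eq_card_filter_range]
    congr 1
    ext p
    simp only [mem_filter, mem_range, mem_Icc]
    constructor
    · rintro ⟨h, hp⟩
      exact ⟨⟨hp.two_le, by omega⟩, hp⟩
    · rintro ⟨⟨_, h⟩, hp⟩
      exact ⟨by omega, hp⟩
  have h2 : (Icc 2 y).filter Nat.Prime = insert 2 (SS y) := by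
    ext p
    unfold SS
    simp only [mem_filter, mem_Icc, mem_insert]
    constructor
    · rintro ⟨⟨h, h'⟩, hp⟩
      rcases Nat.lt_or_ge p 3 with h3 | h3
      · left; omega
      · right; exact ⟨⟨h3, h'⟩, hp⟩
    · rintro (rfl | ⟨⟨h, h'⟩, hp⟩)
      · exact ⟨⟨le_rfl, hy⟩, Nat.prime_two⟩
      · exact ⟨⟨by omega, h'⟩, hp⟩
  rw [h1, h2, card_insert_of_notMem]
  · push_cast; ring
  · unfold SS
    simp

lemma QQ_eq (x : ℕ) : QQ x = SS x := by
  unfold QQ SS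
  congr 1

lemma cheb_SS : ∃ c : ℝ, 0 < c ∧ ∀ y : ℕ, 3 ≤ y → c * (y / Real.log y) ≤ #(SS y) := by
  have hpi := Pool.Agent.Helper923.PNT.pi_tendsto
  have t1 : Tendsto (fun X : ℕ => (Nat.primeCounting X : ℝ) * Real.log X / X) atTop (𝓝 1) := by
    have := hpi.comp tendsto_natCast_atTop_atTop
    refine this.congr fun X => ?_
    simp
  have t4 : Tendsto (fun X : ℕ => Real.log X / X) atTop (𝓝 0) := by
    have h := (Real.isLittleO_log_id_atTop).tendsto_div_nhds_zero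
    have := h.comp tendsto_natCast_atTop_atTop
    refine this.congr fun X => ?_
    simp
  have t5 := t1.sub t4
  rw [sub_zero] at t5
  obtain ⟨Y0, hY0⟩ := eventually_atTop.1 (t5.eventually (lt_mem_nhds (by norm_num : (1 / 2 : ℝ) < 1)))
  set M : ℝ := (Y0 : ℝ) + 2 with hM
  have hM0 : 0 < M := by positivity
  refine ⟨min (1 / 2) (1 / M), by positivity, fun y hy => ?_⟩
  have hy3 : (3 : ℝ) ≤ y := by exact_mod_cast hy
  have hlog1 : 1 ≤ Real.log y := by
    rw [Real.le_log_iff_exp_le (by linarith)]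
    have := Real.exp_one_lt_d9
    linarith
  have hyl : 0 ≤ (y : ℝ) / Real.log y := by positivity
  rw [card_SS y (by omega)]
  by_cases hyY : Y0 ≤ y
  · have h := hY0 y hyY
    refine (mul_le_mul_of_nonneg_right (min_le_left _ _) hyl).trans ?_
    have h2 : ((Nat.primeCounting y : ℝ) * Real.log y / y - Real.log y / y) * (y / Real.log y) =
        (Nat.primeCounting y : ℝ) - 1 := by
      field_simp
    rw [← h2]
    exact mul_le_mul_of_nonneg_right h.le hyl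
  · push Not at hyY
    have h1 : (1 : ℝ) ≤ (Nat.primeCounting y : ℝ) - 1 := by
      have h2 : 2 ≤ Nat.primeCounting y := by
        have := Nat.monotone_primeCounting hy
        have h3 : Nat.primeCounting 3 = 2 := by decide
        omega
      have : (2 : ℝ) ≤ Nat.primeCounting y := by exact_mod_cast h2
      linarith
    refine le_trans ?_ h1
    refine (mul_le_mul_of_nonneg_right (min_le_right _ _) hyl).trans ?_
    have h3 : (y : ℝ) / Real.log y ≤ y := div_le_self (by positivity) hlog1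
    have h4 : (y : ℝ) ≤ M := by
      have : (y : ℝ) < Y0 := by exact_mod_cast hyY
      rw [hM]; linarith
    rw [one_div, inv_mul_le_iff₀ hM0]
    linarith

theorem pair_avg : ∃ C : ℝ, 1 ≤ C ∧ ∀ y : ℕ, 3 ≤ y →
    ∑ z ∈ (SS y).offDiag, gg (2 * Nat.dist z.1 z.2) ≤ C * (#(SS y) : ℝ) ^ 2 := by
  classical
  obtain ⟨C, hC1, hC⟩ := row_bound
  obtain ⟨c, hc0, hc⟩ := cheb_SS
  refine ⟨max 1 (C / c), le_max_left _ _, fun y hy => ?_⟩
  have h1 : ∑ z ∈ (SS y).offDiag, gg (2 * Nat.dist z.1 z.2) =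
      ∑ a ∈ SS y, ∑ b ∈ (SS y).erase a, gg (2 * Nat.dist a b) := by
    rw [Finset.sum_sigma']
    refine Finset.sum_bij' (fun z _ => (⟨z.1, z.2⟩ : Σ _ : ℕ, ℕ)) (fun z _ => (z.1, z.2)) ?_ ?_ ?_ ?_ ?_
    · intro z hz
      rw [mem_offDiag] at hz
      rw [mem_sigma, mem_erase]
      exact ⟨hz.1, Ne.symm hz.2.2, hz.2.1⟩
    · intro z hz
      rw [mem_sigma, mem_erase] at hz
      rw [mem_offDiag]
      exact ⟨hz.1, hz.2.2, Ne.symm hz.2.1⟩
    · intro z _; rfl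
    · intro z _; rfl
    · intro z _; rfl
  rw [h1]
  have h2 : ∑ a ∈ SS y, ∑ b ∈ (SS y).erase a, gg (2 * Nat.dist a b) ≤
      ∑ _a ∈ SS y, C * (y / Real.log y) := sum_le_sum fun a ha => hC y a hy ha
  rw [sum_const, nsmul_eq_mul] at h2
  refine h2.trans ?_
  have h3 := hc y hy
  have h4 : C * (y / Real.log y) ≤ (C / c) * #(SS y) := by
    calc C * (y / Real.log y) = (C / c) * (c * (y / Real.log y)) := by field_simp
      _ ≤ _ := by gcongr
  calc (#(SS y) : ℝ) * (C * (y / Real.log y)) ≤ (#(SS y) : ℝ) * ((C / c) * #(SS y)) := by gcongr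
    _ = (C / c) * (#(SS y) : ℝ) ^ 2 := by ring
    _ ≤ _ := by gcongr; exact le_max_right _ _

/-- the sums of an odd prime up to `y` and an odd prime up to `x` -/
noncomputable def II (y x : ℕ) : Finset ℕ := ((SS y) ×ˢ (SS x)).image (fun z => z.1 + z.2)

theorem moment : ∃ C : ℝ, 1 ≤ C ∧ ∃ u0 : ℕ, ∀ (x y : ℕ), u0 ≤ x → 3 ≤ y →
    2 * (y : ℝ) ≤ (x : ℝ) ^ (1 / 16 : ℝ) →
    ((#(SS y) : ℝ) * #(SS x)) ^ 2 ≤ #(II y x) * ((#(SS y) : ℝ) * #(SS x) +
      C * (#(SS y) : ℝ) ^ 2 * x / Real.log x ^ 2) := by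
  obtain ⟨C1, hC1, u0, h1⟩ := second_moment
  obtain ⟨C2, hC2, h2⟩ := pair_avg
  refine ⟨C1 * C2, by nlinarith, u0, fun x y hx hy hxy => ?_⟩
  have hS : SS y ⊆ Icc 1 y := by
    intro p hp
    unfold SS at hp
    rw [mem_filter, mem_Icc] at hp
    rw [mem_Icc]
    omega
  have h3 := h1 x y (SS y) hx hxy hS
  rw [QQ_eq] at h3
  refine h3.trans ?_
  unfold II
  have h5 : C1 * ∑ z ∈ (SS y).offDiag, gg (2 * z.1.dist z.2) ≤ C1 * C2 * (#(SS y) : ℝ) ^ 2 := by
    rw [mul_assoc]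
    exact mul_le_mul_of_nonneg_left (h2 y hy) (by linarith)
  apply mul_le_mul_of_nonneg_left _ (Nat.cast_nonneg _)
  apply add_le_add le_rfl
  apply div_le_div_of_nonneg_right _ (by positivity)
  exact mul_le_mul_of_nonneg_right h5 (Nat.cast_nonneg _)

end Pool.Agent.J6H28.GD
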